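import Pool.Agent.Run7.h718.AF.Defs
import Pool.Agent.Run7.h718.SP.Thm
import Pool.Agent.N626.Pe
import Pool.Agent.N626.Zf
import Pool.Agent.N626.Al

/-!
Periodic curves of exponential type are not Zariski-dense in varieties of general type.
-/

set_option autoImplicit false
set_option linter.overlappingInstances false
set_option linter.unusedSectionVars false

open Set MvPolynomial FF Pool.Agent.W602.GT Pool.Agent.TH143.GT
open Pool.Agent.W603.GR (OffQ)
open Pool.Agent.Run7.h718.ND (Ent evl ent_ext fe eval_form)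

namespace Pool.Agent.Run7.h718.AF

theorem log_of_gt {n w : ℕ} {K : Type} [Field K] [Algebra ℂ K] {y : Fin (n + 1) → K}
    (h : GeneralType ℂ K w) : LogGeneralType ℂ K w (OffQ 1 0 y) := by
  obtain ⟨h1, N, hN, ω, h2, h3, h4⟩ := h
  refine ⟨h1, N, hN, ω, h2, fun P hP j D hD => ?_, fun P hP _ j => h3 P hP j, h4⟩
  exact h3 P hP j D fun i => log_reg (hD i)

/-- the exponential function -/
noncomputable def eE : Ent := ⟨N626.ee, N626.ee_diff⟩

theorem psi_apply (P : Polynomial ℂ) (z : ℂ) :
    evl z (Polynomial.aeval eE P) = P.eval (N626.ee z) := by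
  rw [Polynomial.aeval_def, Polynomial.hom_eval₂]
  rfl

theorem psi_inj {P : Polynomial ℂ} (h : Polynomial.aeval eE P = 0) : P = 0 := by
  have h1 : ∀ z, P.eval (N626.ee z) = 0 := fun z => by rw [← psi_apply, h, map_zero]
  have h2 : ∀ t : ℂ, t ≠ 0 → P.eval t = 0 := by
    intro t ht
    have h3 := h1 (Complex.log t / (2 * Real.pi * Complex.I))
    have h4 : N626.ee (Complex.log t / (2 * Real.pi * Complex.I)) = t := by
      unfold N626.ee
      have h5 : (2 * Real.pi * Complex.I : ℂ) ≠ 0 := by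
        simp [Real.pi_ne_zero, Complex.I_ne_zero]
      rw [mul_div_cancel₀ _ h5, Complex.exp_log ht]
    rwa [h4] at h3
  refine Polynomial.eq_zero_of_infinite_isRoot P (Set.Infinite.mono (s := {0}ᶜ) ?_ ?_)
  · intro t ht
    exact h2 t ht
  · exact (Set.finite_singleton (0 : ℂ)).infinite_compl

theorem not_exp {n w : ℕ} {K : Type} [Field K] [Algebra ℂ K] {y : Fin (n + 1) → K}
    {f : ℂ → Fin (n + 1) → ℂ} (hgp : GenPt f univ K w y) (hT : ∀ j, ExpType fun z => f z j)
    (h0 : ∀ z, f z ≠ 0) (hnc : ∃ z w j k, f z j * f w k ≠ f z k * f w j) {c : ℂ} (hc : c ≠ 0)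
    (hper : ∀ z, ∃ u : ℂ, f (z + c) = u • f z) : ¬ GeneralType ℂ K w := by
  classical
  intro hgt
  obtain ⟨g, hg⟩ : ∃ g : ℂ → Fin (n + 1) → ℂ, ∀ z, g z = f (c * z) := ⟨_, fun _ => rfl⟩
  have hgT : ∀ j, ExpType fun z => g z j := fun j => by
    have h1 := (hT j).dil c
    have h2 : (fun z => g z j) = fun z => f (c * z) j := by
      funext z
      rw [hg]
    rw [h2]
    exact h1
  have hg1 : ∀ z i j, g (z + 1) i * g z j = g z i * g (z + 1) j := by
    intro z i j
    obtain ⟨u, hu⟩ := hper (c * z)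
    have h1 : g (z + 1) = u • g z := by
      rw [hg, hg, ← hu]
      congr 1
      ring
    rw [h1, Pi.smul_apply, Pi.smul_apply, smul_eq_mul, smul_eq_mul]
    ring
  have hgd : ∀ j, Differentiable ℂ fun z => g z j := fun j => (hgT j).1
  obtain ⟨l, hl⟩ := Function.ne_iff.1 (h0 0)
  have hgl : ∃ z, g z l ≠ 0 := ⟨0, by rw [hg, mul_zero]; exact hl⟩
  have hAB : ∀ i, ∃ A B : Polynomial ℂ, B ≠ 0 ∧
      ∀ z, B.eval (N626.ee z) * g z i = A.eval (N626.ee z) * g z l := by
    intro i
    have h1 : N626.Gr fun z => g z i := (hgT i).2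
    have h2 : N626.Gr fun z => g z l := (hgT l).2
    obtain ⟨C1, hC1, h5⟩ := h1.ge
    obtain ⟨C2, hC2, h6⟩ := h2.ge
    exact N626.per_rat (u := fun z => g z i) (v := fun z => g z l) (C := C1 + C2 + 1) (hgd i)
      (hgd l) (by linarith) (h5 _ (by linarith)) (h6 _ (by linarith)) hgl fun z => hg1 z i l
  choose A B hB hAB using hAB
  let ψ : Polynomial ℂ →ₐ[ℂ] Ent := Polynomial.aeval eE
  have hψ : ∀ P, ψ P = 0 → P = 0 := fun P h => psi_inj h
  let W : Fin (n + 1) → Polynomial ℂ := fun i => A i * ∏ j ∈ Finset.univ.erase i, B j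
  let b : Polynomial ℂ := ∏ j, B j
  have hb : b ≠ 0 := Finset.prod_ne_zero_iff.2 fun j _ => hB j
  have hψb : ψ b ≠ 0 := fun h => hb (hψ b h)
  have hgel : fe hgd l ≠ 0 := by
    intro h
    obtain ⟨z, hz⟩ := hgl
    exact hz (congrFun (congrArg Subtype.val h) z)
  have hW : ∀ i, fe hgd l * ψ (W i) = ψ b * fe hgd i := by
    intro i
    apply ent_ext
    intro z
    have e1 : evl z (ψ (W i)) = (W i).eval (N626.ee z) := psi_apply _ _
    have e2 : evl z (ψ b) = b.eval (N626.ee z) := psi_apply _ _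
    rw [map_mul (evl z) (fe hgd l), map_mul (evl z) (ψ b), e1, e2]
    change g z l * (A i * ∏ j ∈ Finset.univ.erase i, B j).eval (N626.ee z) =
      (∏ j, B j).eval (N626.ee z) * g z i
    rw [← Finset.mul_prod_erase _ B (Finset.mem_univ i), Polynomial.eval_mul, Polynomial.eval_mul]
    linear_combination -(∏ j ∈ Finset.univ.erase i, B j).eval (N626.ee z) * hAB i z
  have hWl : W l = b := by
    apply sub_eq_zero.1
    apply hψ
    have h1 := hW l
    rw [map_sub, sub_eq_zero]
    apply mul_left_cancel₀ hgel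
    rw [h1, mul_comm]
  have hzero : ∀ G : MvPolynomial (Fin (n + 1)) ℂ, IsForm G →
      (aeval (fe hgd) G = 0 ↔ (aeval W G : Polynomial ℂ) = 0) := by
    rintro G ⟨d, hd⟩
    have h1 : ψ (aeval W G) = aeval (fun i => ψ (W i)) G :=
      MvPolynomial.comp_aeval_apply (f := W) ψ G
    have h2 : aeval (fun i => fe hgd l * ψ (W i)) G = fe hgd l ^ d * aeval (fun i => ψ (W i)) G :=
      ND.eval₂_scale _ hd _ _
    have h3 : aeval (fun i => ψ b * fe hgd i) G = ψ b ^ d * aeval (fe hgd) G :=
      ND.eval₂_scale _ hd _ _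
    have h4 : (fun i => fe hgd l * ψ (W i)) = fun i => ψ b * fe hgd i := funext hW
    rw [h4, h3, ← h1] at h2
    constructor
    · intro h
      rw [h, mul_zero] at h2
      exact hψ _ ((mul_eq_zero.1 h2.symm).resolve_left (pow_ne_zero _ hgel))
    · intro h
      rw [h, map_zero, mul_zero] at h2
      exact (mul_eq_zero.1 h2).resolve_left (pow_ne_zero _ hψb)
  have hgz : ∀ G : MvPolynomial (Fin (n + 1)) ℂ, IsForm G →
      (W602.GT.val y G = 0 ↔ aeval (fe hgd) G = 0) := by
    intro G hG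
    rw [hgp.rel G hG]
    constructor
    · intro h
      apply ent_ext
      intro z
      rw [eval_form, map_zero, hg]
      exact h _ (mem_univ _)
    · intro h z _
      have h1 := eval_form hgd G (z / c)
      rw [h, map_zero, hg, mul_div_cancel₀ _ hc] at h1
      exact h1.symm
  have hF : Fam (k := ℂ) (M := ℂ) y (1 : MvPolynomial (Fin (n + 1)) ℂ) W 0 := by
    refine ⟨fun G hG => (hgz G hG).trans (hzero G hG), 1, one_ne_zero, ?_⟩
    rw [map_one, pow_zero, map_one, mul_one]
  -- the family is not constant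
  have hder : ∃ j, Polynomial.derivative (W j) * W l ≠ W j * Polynomial.derivative (W l) := by
    by_contra hcon
    push Not at hcon
    have h1 : ∀ j, ∃ a : ℂ, ∀ z, g z j = a * g z l := by
      intro j
      have h2 := N626.der_prop (hcon j) b.natDegree
      rw [hWl] at h2
      have h3 : b.coeff b.natDegree ≠ 0 := Polynomial.leadingCoeff_ne_zero.2 hb
      refine ⟨(W j).coeff b.natDegree / b.coeff b.natDegree, fun z => ?_⟩
      have h4 : algebraMap ℂ Ent (b.coeff b.natDegree) * ψ (W j) =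
          algebraMap ℂ Ent ((W j).coeff b.natDegree) * ψ b := by
        have h6 : ∀ a : ℂ, ψ (Polynomial.C a) = algebraMap ℂ Ent a := fun a =>
          Polynomial.aeval_C eE a
        rw [← h6, ← h6, ← map_mul ψ (Polynomial.C _) (W j), ← map_mul ψ (Polynomial.C _) b, h2]
      have h5 : algebraMap ℂ Ent (b.coeff b.natDegree) * fe hgd j =
          algebraMap ℂ Ent ((W j).coeff b.natDegree) * fe hgd l := by
        apply mul_left_cancel₀ hψb
        have h6 := hW j
        calc ψ b * (algebraMap ℂ Ent (b.coeff b.natDegree) * fe hgd j)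
            = algebraMap ℂ Ent (b.coeff b.natDegree) * (ψ b * fe hgd j) := by ring
          _ = algebraMap ℂ Ent (b.coeff b.natDegree) * ψ (W j) * fe hgd l := by rw [← h6]; ring
          _ = ψ b * (algebraMap ℂ Ent ((W j).coeff b.natDegree) * fe hgd l) := by rw [h4]; ring
      have h6 := congrArg (evl z) h5
      rw [map_mul, map_mul] at h6
      have h7 : b.coeff b.natDegree * g z j = (W j).coeff b.natDegree * g z l := h6
      field_simp
      linear_combination h7
    obtain ⟨z, z', j, k, hne⟩ := hnc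
    apply hne
    obtain ⟨a, ha⟩ := h1 j
    obtain ⟨a', ha'⟩ := h1 k
    have h2 : ∀ (z : ℂ) j, f z j = g (z / c) j := fun z j => by rw [hg, mul_div_cancel₀ _ hc]
    rw [h2 z j, h2 z' k, h2 z k, h2 z' j, ha, ha, ha', ha']
    ring
  obtain ⟨j, hj⟩ := hder
  have hvl : W602.GT.val y (X l : MvPolynomial (Fin (n + 1)) ℂ) ≠ 0 := by
    intro h
    have h1 := (hgz (X l) ⟨1, isHomogeneous_X _ _⟩).1 h
    rw [aeval_X] at h1
    exact hgel h1
  have htr : Algebra.trdeg ℂ ℂ = (0 : ℕ) := by
    rw [Nat.cast_zero]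
    exact _root_.trdeg_eq_zero
  have hflat := (hF.main hgp.dim htr hgp.ne hgp.gen (isHomogeneous_one _ _)).2.2.1 (log_of_gt hgt)
    (W602.GT.val y (X j : MvPolynomial (Fin (n + 1)) ℂ) /
      W602.GT.val y (X l : MvPolynomial (Fin (n + 1)) ℂ))
  have h1 := hflat 1 (X j) (X l) (isHomogeneous_X _ _) (isHomogeneous_X _ _) hvl rfl
  rw [aeval_X, aeval_X] at h1
  exact hj h1

end Pool.Agent.Run7.h718.AF
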