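import Pool.Agent.Run7.h718.TR.Pt
import Pool.Agent.Run7.h718.SP.Defs
import Pool.Agent.Run7.h718.SP.Comp

/-!
Curves in varieties of general type which satisfy a rational functional equation with an affine
substitution: the homogeneous coordinates can be chosen as solutions of linear functional equations
with constant coefficients.
-/

set_option autoImplicit false
set_option linter.overlappingInstances false
set_option linter.unusedSectionVars false
set_option maxHeartbeats 1000000
set_option synthInstance.maxHeartbeats 400000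

open MvPolynomial FF Pool.Agent.W602.GT Pool.Agent.TH143.GT
open Pool.Agent.Run7.h718.ND (Ent evl evl_apply ent_ext fe)
open Pool.Agent.Run7.h718.SP (cm cm_pow_apply FunEq segS)
open Pool.Agent.Run7.h718.NE (pev evl_aeval)
open Pool.Agent.Run7.h718.TR

namespace Pool.Agent.Run7.h718.AF

/-- the affine substitution -/
noncomputable def aff (a b : ℂ) : Polynomial ℂ := Polynomial.C a * Polynomial.X + Polynomial.C b

theorem aff_eval (a b z : ℂ) : (aff a b).eval z = a * z + b := by
  simp [aff]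

/-- the inverse -/
noncomputable def inv (a b : ℂ) : Polynomial ℂ := aff a⁻¹ (-(b / a))

theorem inv_left {a : ℂ} (ha : a ≠ 0) (b z : ℂ) : (inv a b).eval ((aff a b).eval z) = z := by
  unfold inv
  rw [aff_eval, aff_eval]
  field_simp
  ring

theorem inv_right {a : ℂ} (ha : a ≠ 0) (b z : ℂ) : (aff a b).eval ((inv a b).eval z) = z := by
  unfold inv
  rw [aff_eval, aff_eval]
  field_simp
  ring

theorem inv_iter {a : ℂ} (ha : a ≠ 0) (b : ℂ) (k : ℕ) (z : ℂ) :
    (fun x => (aff a b).eval x)^[k] ((fun x => (inv a b).eval x)^[k] z) = z := by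
  have h1 : Function.LeftInverse (fun x => (aff a b).eval x) fun x => (inv a b).eval x :=
    fun z => inv_right ha b z
  exact h1.iterate k z

theorem comm_iter {a : ℂ} (ha : a ≠ 0) (b : ℂ) (k i : ℕ) (z : ℂ) :
    (fun x => (inv a b).eval x)^[k] ((fun x => (aff a b).eval x)^[i] z) =
      (fun x => (aff a b).eval x)^[i] ((fun x => (inv a b).eval x)^[k] z) := by
  have h1 : Function.Commute (fun x => (inv a b).eval x) fun x => (aff a b).eval x := fun z => by
    beta_reduce
    rw [inv_left ha, inv_right ha]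
  exact (h1.iterate_iterate k i) z

theorem cm_inj' {a : ℂ} (ha : a ≠ 0) (b : ℂ) : Function.Injective (cm (aff a b)) := by
  intro f g h
  apply Subtype.ext
  funext z
  have h1 := congrFun (congrArg Subtype.val h) ((inv a b).eval z)
  have h2 : f.1 ((aff a b).eval ((inv a b).eval z)) = g.1 ((aff a b).eval ((inv a b).eval z)) := h1
  rwa [inv_right ha] at h2

theorem cm_inj_inv {a : ℂ} (ha : a ≠ 0) (b : ℂ) : Function.Injective (cm (inv a b)) := by
  intro f g h
  apply Subtype.ext
  funext z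
  have h1 := congrFun (congrArg Subtype.val h) ((aff a b).eval z)
  have h2 : f.1 ((inv a b).eval ((aff a b).eval z)) = g.1 ((inv a b).eval ((aff a b).eval z)) := h1
  rwa [inv_left ha] at h2

/-- sums of fractions -/
theorem sum_frac {ι : Type} [DecidableEq ι] (s : Finset ι) (C : ι → ℂ) (u v : ι → Ent)
    (hv : ∀ i ∈ s, v i ≠ 0) (h : ∑ i ∈ s, C i • (im (u i) / im (v i)) = 0) (z : ℂ)
    (hz : ∀ i ∈ s, (v i).1 z ≠ 0) : ∑ i ∈ s, C i * ((u i).1 z / (v i).1 z) = 0 := by
  have key : im (∑ i ∈ s, algebraMap ℂ Ent (C i) * u i * ∏ j ∈ s.erase i, v j) = 0 := by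
    unfold im
    rw [map_sum]
    have h1 : ∀ i ∈ s, algebraMap Ent (FR Ent) (algebraMap ℂ Ent (C i) * u i *
        ∏ j ∈ s.erase i, v j) = C i • (im (u i) / im (v i)) *
        algebraMap Ent (FR Ent) (∏ j ∈ s, v j) := by
      intro i hi
      have h3 : algebraMap Ent (FR Ent) (v i) ≠ 0 := im_ne (hv i hi)
      rw [← Finset.mul_prod_erase s v hi, map_mul, map_mul, map_mul, Algebra.smul_def,
        IsScalarTower.algebraMap_apply ℂ Ent (FR Ent)]
      unfold im
      field_simp
    rw [Finset.sum_congr rfl h1, ← Finset.sum_mul, h, zero_mul]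
  have h4 : ∑ i ∈ s, algebraMap ℂ Ent (C i) * u i * ∏ j ∈ s.erase i, v j = 0 :=
    im_inj (key.trans (map_zero (algebraMap Ent (FR Ent))).symm)
  have h5 : ∑ i ∈ s, C i * (u i).1 z * ∏ j ∈ s.erase i, (v j).1 z = 0 := by
    have h6 := congrArg (evl z) h4
    rw [map_zero, map_sum] at h6
    rw [← h6]
    refine Finset.sum_congr rfl fun i _ => ?_
    rw [map_mul, map_mul, map_prod]
    rfl
  have h6 : ∏ j ∈ s, (v j).1 z ≠ 0 := Finset.prod_ne_zero_iff.2 hz
  apply mul_right_cancel₀ h6
  rw [zero_mul, Finset.sum_mul, ← h5]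
  refine Finset.sum_congr rfl fun i hi => ?_
  rw [← Finset.mul_prod_erase s (fun j => (v j).1 z) hi]
  have h7 := hz i hi
  field_simp

/-- **The coordinates.** -/
theorem exists_coef {n m w : ℕ} {K : Type} [Field K] [Algebra ℂ K] {y : Fin (n + 1) → K}
    {f : ℂ → Fin (n + 1) → ℂ} (hgp : GenPt f Set.univ K w y)
    (hfd : ∀ j, Differentiable ℂ fun z => f z j) {a b : ℂ} (ha : a ≠ 0)
    (hE : FunEq (aff a b) m f) (hgt : GeneralType ℂ K w) :
    ∃ (u v : Fin (n + 1) → Ent) (c0 : Fin (n + 1)), u c0 ≠ 0 ∧ (∀ j, v j ≠ 0) ∧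
      (∀ i j z, (u i).1 z * (v j).1 z * f z j = (u j).1 z * (v i).1 z * f z i) ∧
      ∀ j, ∃ P : Polynomial ℂ, P ≠ 0 ∧ ∀ z, (∀ k ∈ Finset.range (P.natDegree + 1),
        (v j).1 ((fun x => (aff a b).eval x)^[k] z) ≠ 0) →
        ∑ k ∈ Finset.range (P.natDegree + 1), P.coeff k *
          ((u j).1 ((fun x => (aff a b).eval x)^[k] z) /
            (v j).1 ((fun x => (aff a b).eval x)^[k] z)) = 0 := by
  classical
  obtain ⟨l, c, R0, Rr, e, P, hc, ⟨zR, hR0⟩, hR, hP, ⟨z0, i0, hz0⟩, heq⟩ := hE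
  obtain ⟨S, hS⟩ : ∃ S, S = aff a b := ⟨_, rfl⟩
  rw [← hS] at hR hz0 heq
  have hs : Function.Injective (cm S) := by
    rw [hS]
    exact cm_inj' ha b
  let cE : Fin l → Ent := fun i => ⟨fun z => c z i, hc i⟩
  have hφ : ∀ z (G : MvPolynomial (Fin l) ℂ), evl z (aeval cE G) = eval (c z) G := fun z G =>
    evl_aeval cE G z
  have hit : ∀ k (g : Ent) z, evl z ((cm S)^[k] g) = g.1 ((fun x => S.eval x)^[k] z) :=
    fun k g z => cm_pow_apply S k g z
  have hpe : ∀ z i, evl z (peR (cm S) (fe hfd) cE (P i)) = pev (P i) (c z) (segS S m f z) := by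
    intro z i
    change evl z (eval₂ _ _ (P i)) = _
    rw [eval₂_comp_left (evl z)]
    have h1 : (evl z).comp (aeval cE : MvPolynomial (Fin l) ℂ →ₐ[ℂ] Ent).toRingHom =
        eval (c z) := RingHom.ext fun G => hφ z G
    have h2 : (evl z : Ent → ℂ) ∘ (fun t : Fin m → Fin (n + 1) =>
        ∏ k : Fin m, (cm S)^[k] (fe hfd (t k))) = segS S m f z := by
      funext t
      change evl z (∏ k : Fin m, (cm S)^[k] (fe hfd (t k))) = _
      rw [map_prod]
      exact Finset.prod_congr rfl fun k _ => hit _ _ _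
    rw [h1, h2]
    rfl
  have hR0' : aeval cE R0 ≠ 0 := by
    intro h0
    apply hR0
    rw [← hφ, h0, map_zero]
  have hR' : ∀ i, cm S (cE i) * aeval cE R0 = aeval cE (Rr i) := by
    intro i
    apply ent_ext
    intro z
    rw [map_mul, hφ, hφ]
    exact hR z i
  have hz' : ∃ i, peR (cm S) (fe hfd) cE (P i) ≠ 0 := by
    refine ⟨i0, fun h0 => hz0 ?_⟩
    rw [← hpe, h0, map_zero]
  have heq' : ∀ i j, (cm S)^[m] (fe hfd i) * peR (cm S) (fe hfd) cE (P j) =
      (cm S)^[m] (fe hfd j) * peR (cm S) (fe hfd) cE (P i) := by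
    intro i j
    apply ent_ext
    intro z
    rw [map_mul, map_mul, hpe, hpe, hit, hit]
    exact heq z i j
  have hess : Algebra.EssFiniteType ℂ K := ND.ess_of_coords hgp.gen
  obtain ⟨ι, hι⟩ := ND.exists_emb hgp hfd
  have hι' : ∀ i j, y j ≠ 0 → ι (y i / y j) = im (fe hfd i) / im (fe hfd j) ∧ fe hfd j ≠ 0 := by
    intro i j hj
    have h1 := hι 1 (X i) (X j) (isHomogeneous_X _ _) (isHomogeneous_X _ _) (by rwa [ND.val_X])
    rw [ND.val_X, ND.val_X, ND.aeval_fe_X, ND.aeval_fe_X] at h1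
    exact h1
  obtain ⟨c0, hc0⟩ := Function.ne_iff.1 hgp.ne
  have hc0' : y c0 ≠ 0 := hc0
  obtain ⟨k, x, hxc, hxS, hxf⟩ := exists_coords hs hR0' hR' hP hz' heq' hgp.gen ι hι' hgt hc0'
  have hfr : ∀ j, ∃ u v : Ent, v ≠ 0 ∧ x j = im u / im v := by
    intro j
    obtain ⟨u, v, hv, h1⟩ := IsFractionRing.div_surjective (A := Ent) (x j)
    exact ⟨u, v, nonZeroDivisors.ne_zero hv, h1.symm⟩
  choose u v hv hx using hfr
  have hseim : ∀ (k : ℕ) (g : Ent), (se (cm S) hs)^[k] (im g) = im ((cm S)^[k] g) := by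
    intro k
    induction k with
    | zero => exact fun r => rfl
    | succ k ih =>
      intro r
      rw [Function.iterate_succ_apply', Function.iterate_succ_apply', ih, se_im]
  have hsediv : ∀ (k : ℕ) (a b : FR Ent), (se (cm S) hs)^[k] (a / b) =
      (se (cm S) hs)^[k] a / (se (cm S) hs)^[k] b := by
    intro k
    induction k with
    | zero => exact fun a b => rfl
    | succ k ih =>
      intro a b
      rw [Function.iterate_succ_apply', Function.iterate_succ_apply', Function.iterate_succ_apply',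
        ih, map_div₀]
  have hcm0 : ∀ (k : ℕ) (g : Ent), g ≠ 0 → (cm S)^[k] g ≠ 0 := by
    intro k g hg h0
    apply hg
    apply Function.Injective.iterate hs k
    exact h0.trans (Function.iterate_fixed (map_zero (cm S)) k).symm
  -- composition with the inverse
  obtain ⟨T, hT⟩ : ∃ T, T = inv a b := ⟨_, rfl⟩
  have hTi : Function.Injective (cm T) := by
    rw [hT]
    exact cm_inj_inv ha b
  have hTk : ∀ (g : Ent) z, ((cm T)^[k] g).1 z = g.1 ((fun x => T.eval x)^[k] z) :=
    fun g z => cm_pow_apply T k g z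
  have hcT0 : ∀ g : Ent, g ≠ 0 → (cm T)^[k] g ≠ 0 := by
    intro g hg h0
    apply hg
    apply Function.Injective.iterate hTi k
    exact h0.trans (Function.iterate_fixed (map_zero (cm T)) k).symm
  have hST : ∀ z, (fun x => S.eval x)^[k] ((fun x => T.eval x)^[k] z) = z := by
    rw [hS, hT]
    exact inv_iter ha b k
  have hcomm : ∀ (i : ℕ) z, (fun x => T.eval x)^[k] ((fun x => S.eval x)^[i] z) =
      (fun x => S.eval x)^[i] ((fun x => T.eval x)^[k] z) := by
    rw [hS, hT]
    exact comm_iter ha b k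
  have huc : u c0 ≠ 0 := by
    intro h0
    apply hxc
    rw [hx, h0]
    unfold im
    rw [map_zero, zero_div]
  -- the relations
  have hrel : ∀ i j z, (u i).1 z * (v j).1 z * f ((fun x => S.eval x)^[k] z) j =
      (u j).1 z * (v i).1 z * f ((fun x => S.eval x)^[k] z) i := by
    have h1 : ∀ i j, u i * v j * (cm S)^[k] (fe hfd j) = u j * v i * (cm S)^[k] (fe hfd i) := by
      intro i j
      have hF := im_ne (hcm0 k _ (hι' c0 c0 hc0').2)
      have hvi := im_ne (hv i)
      have hvj := im_ne (hv j)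
      have e1 : x i * im ((cm S)^[k] (fe hfd j)) = x j * im ((cm S)^[k] (fe hfd i)) := by
        apply mul_left_cancel₀ hxc
        calc x c0 * (x i * im ((cm S)^[k] (fe hfd j)))
            = x i * (x c0 * im ((cm S)^[k] (fe hfd j))) := by ring
          _ = x i * (x j * im ((cm S)^[k] (fe hfd c0))) := by rw [hxf j]
          _ = x j * (x i * im ((cm S)^[k] (fe hfd c0))) := by ring
          _ = x j * (x c0 * im ((cm S)^[k] (fe hfd i))) := by rw [hxf i]
          _ = x c0 * (x j * im ((cm S)^[k] (fe hfd i))) := by ring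
      apply im_inj
      rw [im_mul, im_mul, im_mul, im_mul]
      rw [hx i, hx j] at e1
      field_simp at e1
      linear_combination e1
    intro i j z
    have h2 := congrArg (evl z) (h1 i j)
    rw [map_mul, map_mul, map_mul, map_mul, hit, hit] at h2
    exact h2
  refine ⟨fun j => (cm T)^[k] (u j), fun j => (cm T)^[k] (v j), c0, hcT0 _ huc,
    fun j => hcT0 _ (hv j), fun i j z => ?_, fun j => ?_⟩
  · rw [hTk, hTk, hTk, hTk]
    have h1 := hrel i j ((fun x => T.eval x)^[k] z)
    rw [hST] at h1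
    exact h1
  · obtain ⟨Pj, hPj, hsum⟩ := (hxS j).poly
    refine ⟨Pj, hPj, fun z hz => ?_⟩
    rw [← hS] at hz ⊢
    have h1 : ∀ i, ((cm T)^[k] (u j)).1 ((fun x => S.eval x)^[i] z) =
        ((cm S)^[i] (u j)).1 ((fun x => T.eval x)^[k] z) := by
      intro i
      rw [hTk, hcomm, cm_pow_apply]
    have h2 : ∀ i, ((cm T)^[k] (v j)).1 ((fun x => S.eval x)^[i] z) =
        ((cm S)^[i] (v j)).1 ((fun x => T.eval x)^[k] z) := by
      intro i
      rw [hTk, hcomm, cm_pow_apply]
    simp only [h1, h2] at hz ⊢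
    refine sum_frac _ (fun i => Pj.coeff i) (fun i => (cm S)^[i] (u j)) (fun i => (cm S)^[i] (v j))
      (fun i _ => hcm0 i _ (hv j)) ?_ _ hz
    rw [← hsum]
    refine Finset.sum_congr rfl fun i _ => ?_
    rw [hx j, hsediv, hseim, hseim]

end Pool.Agent.Run7.h718.AF
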