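import Mathlib

/-!
Entire functions of exponential type.
-/

set_option autoImplicit false

namespace Pool.Agent.Run7.h718.AF

/-- The function `g` is entire and of exponential type. -/
def ExpType (g : ℂ → ℂ) : Prop :=
  Differentiable ℂ g ∧ ∃ C : ℝ, ∀ z, ‖g z‖ ≤ C * Real.exp (C * ‖z‖)

theorem ExpType.dil {g : ℂ → ℂ} (h : ExpType g) (b : ℂ) : ExpType fun z => g (b * z) := by
  obtain ⟨h1, C, hC⟩ := h
  refine ⟨h1.comp ((differentiable_const b).mul differentiable_id), C + C * ‖b‖, fun z => ?_⟩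
  have hC0 : 0 ≤ C := by
    have h2 := (norm_nonneg _).trans (hC 0)
    rw [norm_zero, mul_zero, Real.exp_zero, mul_one] at h2
    exact h2
  refine (hC (b * z)).trans ?_
  rw [norm_mul]
  have h3 : 0 ≤ C * ‖b‖ := mul_nonneg hC0 (norm_nonneg b)
  refine mul_le_mul (by linarith) (Real.exp_le_exp.2 ?_) (Real.exp_pos _).le (by linarith)
  nlinarith [norm_nonneg z, mul_nonneg hC0 (norm_nonneg z)]

end Pool.Agent.Run7.h718.AF
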