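import Pool.Agent.Run7.h718.AF.Thm
import Pool.Agent.Run7.h718.AF.Exp

/-!
Zariski-dense entire curves in varieties of general type which satisfy a rational functional
equation with the substitution of a polynomial: the final form.
-/

set_option autoImplicit false
set_option linter.unusedSectionVars false

open Set MvPolynomial FF Pool.Agent.W602.GT Pool.Agent.TH143.GT
open Pool.Agent.W603.BPR Pool.Agent.W603.BP
open Pool.Agent.Run7.h718.SP (FunEq)

namespace Pool.Agent.Run7.h718.AF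

theorem fin_main {n w : ℕ} {K : Type} [Field K] [Algebra ℂ K] {y : Fin (n + 1) → K}
    {f : ℂ → Fin (n + 1) → ℂ} {p : Ideal (MvPolynomial (Fin (n + 1)) ℂ)} (hy : FunField p 1 K w y)
    (hf : EntireCurve p 1 f) (hd : ZDense p f univ) (hgt : GeneralType ℂ K w) :
    ∃ c : ℂ, ∀ (s : Polynomial ℂ) (m : ℕ), 0 < s.natDegree →
      (∀ k, 0 < k → ∃ z, (fun x => s.eval x)^[k] z ≠ z) → FunEq s m f →
      (∃ b : ℂ, s = Polynomial.X + Polynomial.C b ∧ (∃ r : ℚ, b = r * c) ∧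
        ∃ k : ℕ, 0 < k ∧ ∀ z, ∃ u : ℂ, f (z + k * b) = u • f z) ∧
      ¬ ∀ j, ExpType fun z => f z j := by
  obtain ⟨c, hc⟩ := pol_main hy hf hd hgt
  refine ⟨c, fun s m hs hinf hE => ?_⟩
  obtain ⟨b, h1, h2, k, hk, h3⟩ := hc s m hs hinf hE
  refine ⟨⟨b, h1, h2, k, hk, h3⟩, fun hT => ?_⟩
  obtain ⟨hfd, hfne, -, hnc⟩ := ent_data hf
  have hgp : GenPt f univ K w y := hy.genPt (fun z _ => (hf.2.1 z).2.1) hd
  have hb : b ≠ 0 := by
    rintro rfl
    obtain ⟨z, hz⟩ := hinf 1 one_pos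
    apply hz
    rw [Function.iterate_one, h1]
    simp
  exact not_exp hgp hT hfne hnc (mul_ne_zero (Nat.cast_ne_zero.2 hk.ne') hb) h3 hgt

end Pool.Agent.Run7.h718.AF
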