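import Pool.Agent.Run7.h718.AF.Coef
import Pool.Agent.Run7.h718.SP.Thm
import Pool.Agent.Y189.DD.Final

/-!
Zariski-dense entire curves in varieties of general type which satisfy a rational functional
equation with the substitution of a polynomial: the substitution is a translation, and the curve is
periodic.
-/

set_option autoImplicit false
set_option linter.overlappingInstances false
set_option linter.unusedSectionVars false

open Filter Topology Set MvPolynomial FF Pool.Agent.W602.GT Pool.Agent.TH143.GT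
open Pool.Agent.W603.BPR Pool.Agent.W603.BP
open scoped LinearAlgebra.Projectivization
open Pool.Agent.TH143.EL (HolMap InV Rep rep_iff inV_iff)
open Pool.Agent.Run7.h718.ND (Ent ent_an)
open Pool.Agent.Run7.h718.SP (cm cm_pow_apply FunEq)

namespace Pool.Agent.Run7.h718.AF

section proj

variable {n : ℕ} {f : ℂ → Fin (n + 1) → ℂ} (h0 : ∀ z, f z ≠ 0)

/-- the map to the projective space -/
noncomputable def toP (z : ℂ) : ℙ ℂ (Fin (n + 1) → ℂ) := Projectivization.mk ℂ (f z) (h0 z)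

theorem toP_rep (z : ℂ) : Rep (toP h0 z) (f z) := ⟨h0 z, rfl⟩

theorem toP_hol (hfd : ∀ j, Differentiable ℂ fun z => f z j) : HolMap (toP h0) := fun a =>
  ⟨fun j z => f z j, fun j => (hfd j).analyticAt a, Eventually.of_forall fun z => toP_rep h0 z⟩

theorem toP_inV {p : Ideal (MvPolynomial (Fin (n + 1)) ℂ)} (hX : ∀ z, ∀ G ∈ p, eval (f z) G = 0)
    (z : ℂ) : InV p (toP h0 z) := (inV_iff (toP_rep h0 z)).2 fun G hG _ => hX z G hG

theorem toP_dense {p : Ideal (MvPolynomial (Fin (n + 1)) ℂ)} (hd : ZDense p f univ) :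
    Y189.DD.Dense p (toP h0) := by
  intro G hG h
  refine hd G hG fun z _ => ?_
  have h1 : InV (Ideal.span {G}) (toP h0 z) := by
    intro G' hG' _
    obtain ⟨c, rfl⟩ := Ideal.mem_span_singleton'.1 hG'
    rw [map_mul, h z, mul_zero]
  exact (inV_iff (toP_rep h0 z)).1 h1 G (Ideal.mem_span_singleton_self G) hG

theorem toP_eq {z z' : ℂ} (h : toP h0 z = toP h0 z') : ∃ u : ℂ, f z = u • f z' := by
  obtain ⟨u, hu⟩ := (Projectivization.mk_eq_mk_iff' ℂ (f z) (f z') (h0 z) (h0 z')).1 h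
  exact ⟨u, hu.symm⟩

end proj

theorem codis_ne {g : Ent} (hg : g ≠ 0) : ∀ᶠ z in codiscrete ℂ, g.1 z ≠ 0 := by
  have h1 : ∃ z, g.1 z ≠ 0 := by
    by_contra hcon
    push Not at hcon
    exact hg (Subtype.ext (funext hcon))
  obtain ⟨z, hz⟩ := h1
  exact (ent_an g).preimage_zero_mem_codiscrete hz

theorem aff_fun (a b : ℂ) : (fun x => (aff a b).eval x) = fun z => a * z + b :=
  funext (aff_eval a b)

variable {n w : ℕ} {K : Type} [Field K] [Algebra ℂ K] {y : Fin (n + 1) → K}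
  {f : ℂ → Fin (n + 1) → ℂ} {p : Ideal (MvPolynomial (Fin (n + 1)) ℂ)}

theorem curve_of (hgp : GenPt f univ K w y) (hfd : ∀ j, Differentiable ℂ fun z => f z j)
    (h0 : ∀ z, f z ≠ 0) {a b : ℂ} (ha : a ≠ 0)
    (hinf : ∀ k, 0 < k → ∃ z, (fun z => a * z + b)^[k] z ≠ z) {m : ℕ}
    (hE : FunEq (aff a b) m f) (hgt : GeneralType ℂ K w) : Y189.DD.Curve a b (toP h0) := by
  obtain ⟨u, v, c0, huc, hv, hrel, hP⟩ := exists_coef hgp hfd ha hE hgt
  refine ⟨ha, hinf, fun j z => (u j).1 z / (v j).1 z, fun j z => ?_, fun j => ?_, ?_⟩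
  · exact (ent_an (u j) z (mem_univ z)).meromorphicAt.div
      (ent_an (v j) z (mem_univ z)).meromorphicAt
  · obtain ⟨P, hP0, hsum⟩ := hP j
    refine ⟨P.natDegree, fun k => Polynomial.C (P.coeff k), ⟨P.natDegree, le_rfl, ?_⟩, ?_⟩
    · rw [Ne, Polynomial.C_eq_zero]
      exact Polynomial.leadingCoeff_ne_zero.2 hP0
    · have h1 : ∀ᶠ z in codiscrete ℂ, ∀ k ∈ Finset.range (P.natDegree + 1),
          (v j).1 ((fun x => (aff a b).eval x)^[k] z) ≠ 0 := by
        rw [Filter.eventually_all_finset]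
        intro k _
        have h2 : (cm (aff a b))^[k] (v j) ≠ 0 := by
          intro h3
          apply hv j
          apply Function.Injective.iterate (cm_inj' ha b) k
          exact h3.trans (Function.iterate_fixed (map_zero (cm (aff a b))) k).symm
        refine (codis_ne h2).mono fun z hz => ?_
        rwa [cm_pow_apply] at hz
      filter_upwards [h1] with z hz
      have h2 := hsum z hz
      simp only [aff_fun] at h2
      rw [← h2]
      refine Finset.sum_congr rfl fun k _ => ?_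
      rw [Polynomial.eval_C]
  · have h1 : ∀ᶠ z in codiscrete ℂ, ∀ j, (v j).1 z ≠ 0 := by
      rw [Filter.eventually_all]
      exact fun j => codis_ne (hv j)
    filter_upwards [h1, codis_ne huc] with z h2 h3
    rw [rep_iff (toP_rep h0 z)]
    refine ⟨fun h4 => ?_, fun j k => ?_⟩
    · have h5 := congrFun h4 c0
      exact div_ne_zero h3 (h2 c0) h5
    · have h5 := hrel k j z
      have h6 := h2 j
      have h7 := h2 k
      field_simp
      linear_combination h5

/-- **Affine substitutions.** -/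
theorem aff_main (hy : FunField p 1 K w y) (hf : EntireCurve p 1 f) (hd : ZDense p f univ)
    (hgt : GeneralType ℂ K w) : ∃ c : ℂ, ∀ (a b : ℂ) (m : ℕ), a ≠ 0 →
      (∀ k, 0 < k → ∃ z, (fun z => a * z + b)^[k] z ≠ z) → FunEq (aff a b) m f →
      a = 1 ∧ (∃ r : ℚ, b = r * c) ∧ ∃ k : ℕ, 0 < k ∧ ∀ z, ∃ u : ℂ, f (z + k * b) = u • f z := by
  obtain ⟨hfd, hfne, -, -⟩ := ent_data hf
  have hX : ∀ z, ∀ G ∈ p, eval (f z) G = 0 := fun z => (hf.2.1 z).2.1
  have hgp : GenPt f univ K w y := hy.genPt (fun z _ => hX z) hd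
  have hw0 : 0 < w := ND.dim_pos hgp hfd hf.2.2 hfne
  obtain ⟨c, hc⟩ := Y189.DD.final_gt hy hw0 hgt (toP_hol hfne hfd) (toP_inV hfne hX)
    (toP_dense hfne hd)
  refine ⟨c, fun a b m ha hinf hE => ?_⟩
  obtain ⟨h1, h2, k, hk, h3⟩ := hc a b (curve_of hgp hfd hfne ha hinf hE hgt)
  exact ⟨h1, h2, k, hk, fun z => toP_eq hfne (h3 z)⟩

/-- **The theorem.** -/
theorem pol_main (hy : FunField p 1 K w y) (hf : EntireCurve p 1 f) (hd : ZDense p f univ)
    (hgt : GeneralType ℂ K w) : ∃ c : ℂ, ∀ (s : Polynomial ℂ) (m : ℕ), 0 < s.natDegree →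
      (∀ k, 0 < k → ∃ z, (fun x => s.eval x)^[k] z ≠ z) → FunEq s m f →
      ∃ b : ℂ, s = Polynomial.X + Polynomial.C b ∧ (∃ r : ℚ, b = r * c) ∧
        ∃ k : ℕ, 0 < k ∧ ∀ z, ∃ u : ℂ, f (z + k * b) = u • f z := by
  obtain ⟨c, hc⟩ := aff_main hy hf hd hgt
  refine ⟨c, fun s m hs hinf hE => ?_⟩
  by_cases h2 : 2 ≤ s.natDegree
  · exact absurd hgt (SP.curve_main hy hf hd h2 hE).2
  · have h1 : s.natDegree = 1 := by omega
    have h3 : s = aff (s.coeff 1) (s.coeff 0) :=
      Polynomial.eq_X_add_C_of_natDegree_le_one h1.le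
    have ha : s.coeff 1 ≠ 0 := by
      rw [← h1]
      exact Polynomial.leadingCoeff_ne_zero.2 (by rintro rfl; simp at h1)
    have hinf' : ∀ k, 0 < k → ∃ z, (fun z => s.coeff 1 * z + s.coeff 0)^[k] z ≠ z := by
      rw [← aff_fun, ← h3]
      exact hinf
    obtain ⟨e1, e2, e3⟩ := hc (s.coeff 1) (s.coeff 0) m ha hinf' (h3 ▸ hE)
    refine ⟨s.coeff 0, ?_, e2, e3⟩
    rw [e1] at h3
    rw [h3]
    unfold aff
    simp

end Pool.Agent.Run7.h718.AF
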